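import Pool.Agent.K7.H40.MC.Leaves
import Pool.Agent.Y648.CX.All
import Pool.Agent.H568.LP.CombNear
import Pool.Agent.K7.H40.PU.Ctl

set_option autoImplicit false

/-! The class: the number of reals, the algorithm. -/

namespace Pool.Agent.K7.H40.MC

open Matrix Pool.Agent.NPC Pool.Agent.H558R2 Pool.Agent.H622R3.SM
open Pool.Agent.R533.GU Pool.Agent.K7.H40.NU Pool.Agent.Y648.CS

/-- The number of reals for one matrix. -/
def QQ (k L : ℕ) : ℕ := (k + 1) * ((L + 1) * (L + 1)) ^ (k + 1)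

/-- The size for one matrix. -/
def SS (k L : ℕ) : ℕ := 3 * L + (k + 4) * (L * L)

theorem Expr.dim {k L a m n : ℕ} {A : Matrix (Fin m) (Fin n) ℝ} (h : Expr k L a A) :
    m ≤ L ∧ n ≤ L := by
  induction h with
  | poly θ P h1 h2 h3 => exact ⟨h1, h2⟩
  | low A h1 h2 h3 => exact ⟨h1, h2⟩
  | few A h1 h2 h3 => exact ⟨h1, h2⟩
  | span A h1 h2 h3 => exact ⟨h1, h2⟩
  | add hA hB ih1 ih2 => exact ih1
  | mul hA hB ih1 ih2 => exact ⟨ih1.1, ih2.2⟩
  | inv hA hd ih => exact ih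
  | tr hA ih => exact ⟨ih.2, ih.1⟩

theorem QQ_pos (k L : ℕ) : 1 ≤ QQ k L := by
  unfold QQ
  exact Nat.succ_le_of_lt (by positivity)

theorem le_QQ (k L : ℕ) : L ≤ QQ k L := by
  unfold QQ
  have h1 : L ≤ (L + 1) * (L + 1) := by nlinarith
  have h2 : (L + 1) * (L + 1) ≤ ((L + 1) * (L + 1)) ^ (k + 1) :=
    Nat.le_self_pow (by omega) _
  calc L ≤ 1 * ((L + 1) * (L + 1)) ^ (k + 1) := by omega
    _ ≤ _ := Nat.mul_le_mul_right _ (by omega)

theorem Expr.sp {k L a m n : ℕ} {A : Matrix (Fin m) (Fin n) ℝ} (h : Expr k L a A) :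
    Sp (QQ k L ^ (a + 1)) ((2 * a + 1) * SS k L) A := by
  have hQ := QQ_pos k L
  have hLQ := le_QQ k L
  induction h with
  | @poly m n θ P h1 h2 h3 =>
    refine (Sp.poly (by rw [Fintype.card_fin]; exact h1) θ P h3).mono ?_ ?_
    · rw [zero_add, pow_one]
      unfold QQ
      calc (L * L + 1) ^ k ≤ ((L + 1) * (L + 1)) ^ k := Nat.pow_le_pow_left (by nlinarith) _
        _ ≤ ((L + 1) * (L + 1)) ^ (k + 1) := Nat.pow_le_pow_right (by positivity) (by omega)
        _ ≤ (k + 1) * ((L + 1) * (L + 1)) ^ (k + 1) := Nat.le_mul_of_pos_left _ (by omega)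
    · unfold SS
      nlinarith [Nat.zero_le (L * L), Nat.zero_le (k * L * L)]
  | @low m n A h1 h2 h3 =>
    refine (Sp.low A h3).mono ?_ (Nat.zero_le _)
    rw [zero_add, pow_one, Fintype.card_fin, Fintype.card_fin]
    unfold QQ
    refine Nat.mul_le_mul_left _ ?_
    calc ((m + 1) * (n + 1)) ^ k ≤ ((L + 1) * (L + 1)) ^ k :=
          Nat.pow_le_pow_left (Nat.mul_le_mul (by omega) (by omega)) _
      _ ≤ ((L + 1) * (L + 1)) ^ (k + 1) := Nat.pow_le_pow_right (by positivity) (by omega)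
  | @few m n A h1 h2 h3 =>
    refine (Sp.few A).mono ?_ ?_
    · rw [zero_add, pow_one]
      exact h3.trans hLQ
    · rw [Fintype.card_fin, Fintype.card_fin]
      have h4 : {p : Fin m × Fin n | A p.1 p.2 ≠ 0}.ncard ≤ L :=
        Nat.lt_two_pow_self.le.trans h3
      have h5 : {p : Fin m × Fin n | A p.1 p.2 ≠ 0}.ncard * (n + m) ≤ L * (L + L) :=
        Nat.mul_le_mul h4 (by omega)
      unfold SS
      nlinarith [Nat.zero_le (L * L), Nat.zero_le (k * (L * L))]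
  | span A h1 h2 h3 =>
    refine h3.mono ?_ ?_
    · rw [zero_add, pow_one]
      exact hLQ
    · unfold SS
      nlinarith [Nat.zero_le (L * L), Nat.zero_le (k * (L * L))]
  | @add m n a b A B hA hB ih1 ih2 =>
    obtain ⟨d1, d2⟩ := hA.dim
    refine (ih1.add ih2).mono ?_ ?_
    · rw [← pow_add]
      exact Nat.pow_le_pow_right hQ (by omega)
    · rw [Fintype.card_fin, Fintype.card_fin]
      have h5 : n + m ≤ SS k L := by
        unfold SS
        nlinarith [Nat.zero_le (L * L), Nat.zero_le (k * (L * L))]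
      calc (2 * a + 1) * SS k L + (2 * b + 1) * SS k L + (n + m) ≤
          (2 * a + 1) * SS k L + (2 * b + 1) * SS k L + SS k L := by omega
        _ = (2 * (a + b + 1) + 1) * SS k L := by ring
  | @mul m l n a b A B hA hB ih1 ih2 =>
    obtain ⟨d1, d2⟩ := hA.dim
    refine (ih1.mul ih2).mono ?_ ?_
    · rw [← pow_add]
      exact Nat.pow_le_pow_right hQ (by omega)
    · rw [Fintype.card_fin]
      have h5 : l ≤ SS k L := by
        unfold SS
        nlinarith [Nat.zero_le (L * L), Nat.zero_le (k * (L * L))]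
      calc (2 * a + 1) * SS k L + (2 * b + 1) * SS k L + l ≤
          (2 * a + 1) * SS k L + (2 * b + 1) * SS k L + SS k L := by omega
        _ = (2 * (a + b + 1) + 1) * SS k L := by ring
  | inv hA hd ih =>
    exact (ih.inv hd).mono (Nat.pow_le_pow_right hQ (by omega))
      (Nat.mul_le_mul_right _ (by omega))
  | tr hA ih =>
    exact ih.tr.mono (Nat.pow_le_pow_right hQ (by omega)) (Nat.mul_le_mul_right _ (by omega))

theorem Sp.fin {N s : ℕ} {ι κ : Type} {A : Matrix ι κ ℝ} (h : Sp N s A) :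
    ∃ w : Fin N → ℝ, ∀ (q : ℕ) (f : Fin q → ι) (h : Fin q → κ), ∃ y : Fin N → ℤ,
      (∀ l, |y l| ≤ 2 ^ s) ∧ (A.submatrix f h).det = ∑ l, (y l : ℝ) * w l := by
  obtain ⟨I, hI, w, h1, h2⟩ := h
  obtain ⟨e⟩ := Function.Embedding.nonempty_of_card_le (α := I) (β := Fin N)
    (by rw [Fintype.card_fin]; exact h1)
  refine ⟨Function.extend e w 0, fun q f g => ?_⟩
  obtain ⟨y, h3, h4⟩ := h2 q f g
  refine ⟨Function.extend e y 0, fun l => ?_, ?_⟩
  · by_cases hl : ∃ i, e i = l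
    · obtain ⟨i, rfl⟩ := hl
      rw [e.injective.extend_apply]
      exact h3 i
    · rw [Function.extend_apply' _ _ _ hl]
      simp
  · rw [h4]
    refine Fintype.sum_of_injective e e.injective _ _ (fun i hi => ?_) (fun i => ?_)
    · rw [Function.extend_apply' _ _ _ (fun ⟨j, hj⟩ => hi ⟨j, hj⟩)]
      simp
    · rw [e.injective.extend_apply, e.injective.extend_apply]

/-- From the class to minors. -/
theorem minSpan {k m n : ℕ} {A : Matrix (Fin m) (Fin n) ℝ} (h : Expressible k m n A) :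
    W.MinSpan (QQ k ((m + n) ^ k) ^ (k + 1)) ((2 * k + 1) * SS k ((m + n) ^ k)) A := by
  obtain ⟨ρ, B, G, a, h1, h2, h3, h4, h5⟩ := h
  have h6 := h5.sp.mono (Nat.pow_le_pow_right (QQ_pos k _) (show a + 1 ≤ k + 1 by omega))
    (Nat.mul_le_mul_right (SS k ((m + n) ^ k)) (show 2 * a + 1 ≤ 2 * k + 1 by omega))
  obtain ⟨w, h7⟩ := h6.fin
  exact ⟨ρ, B, G, w, h1, h2, h3, fun f g => h7 _ f g⟩

open Polynomial in
/-- The polynomials. -/
theorem exists_pq (k : ℕ) : ∃ PN PS : Polynomial ℕ,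
    (∀ x, PN.eval x = QQ k (x ^ k) ^ (k + 1)) ∧ ∀ x, PS.eval x = (2 * k + 1) * SS k (x ^ k) := by
  refine ⟨(C (k + 1) * ((X ^ k + 1) * (X ^ k + 1)) ^ (k + 1)) ^ (k + 1),
    C (2 * k + 1) * (C 3 * X ^ k + C (k + 4) * (X ^ k * X ^ k)), fun x => ?_, fun x => ?_⟩
  · unfold QQ
    simp only [eval_pow, eval_mul, eval_C, eval_add, eval_X, eval_one]
  · unfold SS
    simp only [eval_pow, eval_mul, eval_C, eval_add, eval_X]

/-- **The algorithm.** -/
theorem decides (k : ℕ) : DecidesOn ∅ (fun m n A _ => Expressible k m n A) W.algW := by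
  obtain ⟨p, hp⟩ := V.main.2.2
  obtain ⟨q, hq⟩ := W.t_SPAN
  obtain ⟨PN, PS, hN, hS⟩ := exists_pq k
  obtain ⟨R, hR⟩ : ∃ R : Polynomial ℕ, R = Polynomial.X + q.comp (Polynomial.X + PN + PS) :=
    ⟨_, rfl⟩
  have hRe : ∀ x, R.eval x = x + q.eval (x + QQ k (x ^ k) ^ (k + 1) +
      (2 * k + 1) * SS k (x ^ k)) := by
    intro x
    rw [hR]
    simp only [Polynomial.eval_add, Polynomial.eval_comp, Polynomial.eval_X, hN, hS]
  refine ⟨p.comp R, fun m n hm hn A b hA => ?_⟩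
  have hs := hq m n _ _ A (minSpan hA)
  obtain ⟨r, hr⟩ : ∃ r, r = q.eval (m + n + QQ k ((m + n) ^ k) ^ (k + 1) +
    (2 * k + 1) * SS k ((m + n) ^ k)) := ⟨_, rfl⟩
  rw [← hr] at hs
  have hfew : V.FewE r (V.lker A) := by
    choose S h1 h2 h3 using hs
    refine ⟨S, fun i j => ⟨h1 i j, h2 i j⟩, fun C hC i j hi hj => ?_⟩
    exact h3 i j C ⟨hC.2.1, hC.1, fun D hD hs => hC.2.2 D hD hs⟩ hi hj
  obtain ⟨ans, nums, steps, h1, h2, h3, h4⟩ := hp m n hm hn A b r
    ⟨_, Or.inl ⟨le_rfl, Nat.le_succ _⟩, hfew⟩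
  have e : (p.comp R).eval (m + n) = p.eval (m + n + r) := by
    rw [Polynomial.eval_comp, hRe, hr]
  rw [e]
  refine ⟨ans, nums, steps, h1, h2, h3, fun A' b' hA' hb' v hv => ?_⟩
  obtain ⟨x, hx1, hx2⟩ := h4 A' b' hA' hb' v hv
  refine ⟨x, hx1, hx2.trans ?_⟩
  rw [Polynomial.eval_comp]
  refine pmono p ?_
  rw [hRe, hr]
  have hL := add_le_inputLength hm A' b'
  refine Nat.add_le_add_left (pmono q ?_) _
  have g1 : PN.eval (m + n) ≤ PN.eval (inputLength A' b') := pmono PN hL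
  have g2 : PS.eval (m + n) ≤ PS.eval (inputLength A' b') := pmono PS hL
  rw [hN, hN] at g1
  rw [hS, hS] at g2
  omega

end Pool.Agent.K7.H40.MC
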