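import Mathlib

set_option autoImplicit false

/-!
# Matrices given by short matrix expressions
-/

namespace Pool.Agent.K7.H40.MC

/-- All minors of `A` (of all orders) are integer combinations, with coefficients at most `2 ^ s`,
of at most `N` real numbers, which do not depend on the minor. -/
def Sp (N s : ℕ) {ι κ : Type} (A : Matrix ι κ ℝ) : Prop :=
  ∃ (I : Type) (_ : Fintype I) (w : I → ℝ), Fintype.card I ≤ N ∧
    ∀ (q : ℕ) (f : Fin q → ι) (h : Fin q → κ), ∃ y : I → ℤ, (∀ l, |y l| ≤ 2 ^ s) ∧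
      (A.submatrix f h).det = ∑ l, (y l : ℝ) * w l

/-- The integer polynomial `p` has degree at most `L` in each variable, and its coefficients are at
most `2 ^ L`. -/
def Small {k : ℕ} (L : ℕ) (p : MvPolynomial (Fin k) ℤ) : Prop :=
  (∀ r, p.degreeOf r ≤ L) ∧ ∀ e, |p.coeff e| ≤ 2 ^ L

/-- `Expr k L a A`: the real matrix `A` is the value of an expression with `a` operations (sums,
products, inverses, transposition) in matrices with at most `L` rows and columns of the following
kinds. -/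
inductive Expr (k L : ℕ) : ℕ → ∀ {m n : ℕ}, Matrix (Fin m) (Fin n) ℝ → Prop
  /-- The entries are the values at any `k` reals of integer polynomials of degree at most `L` in
  each variable, with coefficients at most `2 ^ L`. -/
  | poly {m n : ℕ} (θ : Fin k → ℝ) (P : Matrix (Fin m) (Fin n) (MvPolynomial (Fin k) ℤ)) :
      m ≤ L → n ≤ L → (∀ i j, Small L (P i j)) →
      Expr k L 0 (Matrix.of fun i j => MvPolynomial.aeval θ (P i j))
  /-- Any matrix of rank at most `k`. -/
  | low {m n : ℕ} (A : Matrix (Fin m) (Fin n) ℝ) : m ≤ L → n ≤ L → A.rank ≤ k → Expr k L 0 A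
  /-- Any matrix with at most `log₂ L` nonzero entries. -/
  | few {m n : ℕ} (A : Matrix (Fin m) (Fin n) ℝ) : m ≤ L → n ≤ L →
      2 ^ {p : Fin m × Fin n | A p.1 p.2 ≠ 0}.ncard ≤ L → Expr k L 0 A
  /-- The minors are integer combinations of `L` reals with coefficients at most `2 ^ L`. -/
  | span {m n : ℕ} (A : Matrix (Fin m) (Fin n) ℝ) : m ≤ L → n ≤ L → Sp L L A → Expr k L 0 A
  /-- Sums. -/
  | add {m n a b : ℕ} {A B : Matrix (Fin m) (Fin n) ℝ} : Expr k L a A → Expr k L b B →
      Expr k L (a + b + 1) (A + B)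
  /-- Products. -/
  | mul {m l n a b : ℕ} {A : Matrix (Fin m) (Fin l) ℝ} {B : Matrix (Fin l) (Fin n) ℝ} :
      Expr k L a A → Expr k L b B → Expr k L (a + b + 1) (A * B)
  /-- Inverses. -/
  | inv {n a : ℕ} {A : Matrix (Fin n) (Fin n) ℝ} : Expr k L a A → A.det ≠ 0 →
      Expr k L (a + 1) A⁻¹
  /-- Transposition. -/
  | tr {m n a : ℕ} {A : Matrix (Fin m) (Fin n) ℝ} : Expr k L a A → Expr k L (a + 1) A.transpose

/-- Up to nonzero factors of the rows and an invertible matrix on the right, `A` is the value of an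
expression with at most `k` operations, in matrices with at most `(m + n) ^ k` rows and columns. -/
def Expressible (k m n : ℕ) (A : Matrix (Fin m) (Fin n) ℝ) : Prop :=
  ∃ (ρ : Fin m → ℝ) (B : Matrix (Fin m) (Fin n) ℝ) (G : Matrix (Fin n) (Fin n) ℝ) (a : ℕ),
    (∀ i, ρ i ≠ 0) ∧ G.det ≠ 0 ∧ (∀ i j, ρ i * A i j = (B * G) i j) ∧ a ≤ k ∧
    Expr k ((m + n) ^ k) a B

/-- The sums `A = P + E`, where the entries of `P` are `0`, `1`, `-1`, and `E` has at most
`n ^ (1 / k)` nonzero entries, all of which have absolute value at most `2 ^ (-n ^ k)`. -/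
def FewReals (k m n : ℕ) (A : Matrix (Fin m) (Fin n) ℝ) : Prop :=
  ∃ P E : Matrix (Fin m) (Fin n) ℝ, (∀ i j, P i j = 0 ∨ P i j = 1 ∨ P i j = -1) ∧
    (∀ i j, |E i j| ≤ 1 / 2 ^ (n ^ k)) ∧ {p : Fin m × Fin n | E p.1 p.2 ≠ 0}.ncard ^ k ≤ n ∧
    A = P + E

end Pool.Agent.K7.H40.MC
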