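import Pool.Agent.K7.H40.MC.Class

set_option autoImplicit false

/-! Special cases. -/

namespace Pool.Agent.K7.H40.MC

open Matrix Pool.Agent.NPC Pool.Agent.H558R2 Pool.Agent.H622R3.SM
open Pool.Agent.R533.GU Pool.Agent.K7.H40.NU Pool.Agent.Y648.CS

/-- Small polynomials plus a matrix of small rank. -/
theorem near_expr {k m n : ℕ} (hk : 1 ≤ k) {A : Matrix (Fin m) (Fin n) ℝ}
    (h : W.Near k m n A) : Expressible k m n A := by
  obtain ⟨θ, Q, P, h1, h2, h3, h4⟩ := h
  obtain ⟨c, hc⟩ : ∃ c, c = MvPolynomial.aeval θ Q := ⟨_, rfl⟩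
  rw [← hc] at h3
  have hm : m ≤ (m + n) ^ k := (Nat.le_add_right m n).trans (Nat.le_self_pow (by omega) _)
  have hn : n ≤ (m + n) ^ k := (Nat.le_add_left n m).trans (Nat.le_self_pow (by omega) _)
  refine ⟨fun _ => 1, (Matrix.of fun i j => MvPolynomial.aeval θ (P i j)) +
    (Matrix.of fun i j => MvPolynomial.aeval θ Q * A i j - MvPolynomial.aeval θ (P i j)),
    c⁻¹ • (1 : Matrix (Fin n) (Fin n) ℝ), 0 + 0 + 1, fun _ => one_ne_zero, ?_, fun i j => ?_,
    by omega, (Expr.poly θ P hm hn h2).add (Expr.low _ hm hn h4)⟩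
  · rw [Matrix.det_smul, Matrix.det_one, mul_one]
    exact pow_ne_zero _ (inv_ne_zero h3)
  · rw [Matrix.mul_smul, Matrix.mul_one, Matrix.smul_apply, Matrix.add_apply, Matrix.of_apply,
      Matrix.of_apply, smul_eq_mul, ← hc]
    field_simp
    ring

/-- The minors of matrices all of whose products of entries are small combinations. -/
theorem sp_of_prod {ι κ : Type} [Fintype ι] {N s L : ℕ} (hι : Fintype.card ι ≤ L)
    (w : Fin N → ℝ) (B : Matrix ι κ ℝ)
    (h : ∀ (q : ℕ) (f : Fin q → ι) (g : Fin q → κ), q ≤ L → ∃ y : Fin N → ℤ,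
      (∀ r, |y r| ≤ 2 ^ s) ∧ ∏ i, B (f i) (g i) = ∑ r, (y r : ℝ) * w r) :
    Sp N (L * L + s) B := by
  refine ⟨Fin N, inferInstance, w, by rw [Fintype.card_fin], fun q f g => ?_⟩
  by_cases hf : Function.Injective f
  · have hq : q ≤ L := by
      have := Fintype.card_le_of_injective f hf
      rw [Fintype.card_fin] at this
      omega
    choose y h1 h2 using fun σ : Equiv.Perm (Fin q) => h q (f ∘ σ) g hq
    refine ⟨fun r => ∑ σ : Equiv.Perm (Fin q), (Equiv.Perm.sign σ : ℤ) * y σ r, fun r => ?_, ?_⟩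
    · refine (Finset.abs_sum_le_sum_abs _ _).trans ?_
      calc ∑ σ : Equiv.Perm (Fin q), |(Equiv.Perm.sign σ : ℤ) * y σ r|
          ≤ ∑ _σ : Equiv.Perm (Fin q), (2 ^ s : ℤ) := by
            refine Finset.sum_le_sum fun σ _ => ?_
            rw [abs_mul]
            have e : |(Equiv.Perm.sign σ : ℤ)| = 1 := by
              rcases Int.units_eq_one_or (Equiv.Perm.sign σ) with h | h <;> rw [h] <;> simp
            rw [e, one_mul]
            exact h1 σ r
        _ = (q.factorial : ℤ) * 2 ^ s := by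
            rw [Finset.sum_const, Finset.card_univ, Fintype.card_perm, Fintype.card_fin,
              nsmul_eq_mul]
        _ ≤ 2 ^ (L * L + s) := by
            rw [pow_add]
            refine mul_le_mul_of_nonneg_right ?_ (by positivity)
            have h3 := (Pool.Agent.H568.LP.fact_le2 q).trans
              (Nat.pow_le_pow_right (by norm_num) (Nat.mul_le_mul hq hq) :
                2 ^ (q * q) ≤ 2 ^ (L * L))
            exact_mod_cast h3
    · rw [Matrix.det_apply']
      have e : ∀ σ : Equiv.Perm (Fin q), ((Equiv.Perm.sign σ : ℤ) : ℝ) *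
          ∏ i, B.submatrix f g (σ i) i =
          ∑ r, (((Equiv.Perm.sign σ : ℤ) * y σ r : ℤ) : ℝ) * w r := by
        intro σ
        have e2 : ∏ i, B.submatrix f g (σ i) i = ∏ i, B ((f ∘ σ) i) (g i) := rfl
        rw [e2, h2 σ, Finset.mul_sum]
        refine Finset.sum_congr rfl fun r _ => ?_
        push_cast
        ring
      rw [Finset.sum_congr rfl fun σ _ => e σ, Finset.sum_comm]
      refine Finset.sum_congr rfl fun r _ => ?_
      rw [← Finset.sum_mul]
      push_cast
      rfl
  · unfold Function.Injective at hf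
    push Not at hf
    obtain ⟨x, y, hxy, hne⟩ := hf
    refine ⟨0, fun l => by simp, ?_⟩
    rw [Matrix.det_zero_of_row_eq hne (by funext i; simp [hxy])]
    simp

/-- Matrices of polynomial growth. -/
theorem growth_expr {k m n : ℕ} (hm : 1 ≤ m) (hn : 1 ≤ n) {A : Matrix (Fin m) (Fin n) ℝ}
    (h : W.Growth k m n A) : Expressible (2 * k + 4) m n A := by
  classical
  unfold W.Growth at h
  unfold Expressible
  have hx2 : 2 ≤ m + n := by omega
  generalize hx : m + n = x at h hx2 ⊢
  obtain ⟨R, C, ρ, γ, w, h1, h2, h3, h4, h5⟩ := h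
  have hmx : m ≤ x ^ (2 * k + 4) :=
    (show m ≤ x by omega).trans (Nat.le_self_pow (by omega) _)
  have hnx : n ≤ x ^ (2 * k + 4) :=
    (show n ≤ x by omega).trans (Nat.le_self_pow (by omega) _)
  let B : Matrix (Fin m) (Fin n) ℝ := Matrix.of fun i j => ρ i * A i j * γ j
  let B₀ : Matrix (Fin m) (Fin n) ℝ := Matrix.of fun i j => if i ∈ R ∨ j ∈ C then 0 else B i j
  let B₁ : Matrix (Fin m) (Fin n) ℝ := Matrix.of fun i j => if i ∈ R ∨ j ∈ C then B i j else 0
  have hB : B = B₀ + B₁ := by
    ext i j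
    simp only [B₀, B₁, Matrix.add_apply, Matrix.of_apply]
    split_ifs <;> simp
  have hr : B₁.rank ≤ 2 * k + 4 := by
    have := Pool.Agent.H568.LP.rank_cross B₁ R C (fun i hi j hj => by
      simp only [B₁, Matrix.of_apply]
      rw [if_neg (by tauto)])
    omega
  have hs : Sp (x ^ k) (m * m + x ^ k) B₀ := by
    refine sp_of_prod (by rw [Fintype.card_fin]) w B₀ fun q f g hq => ?_
    by_cases hall : ∀ i, f i ∉ R ∧ g i ∉ C
    · obtain ⟨y, y1, y2⟩ := h5 (List.ofFn fun i => (f i, g i)) (by
        rw [List.length_ofFn]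
        exact hq.trans ((show m ≤ x by omega).trans (Nat.le_self_pow (by omega) _))) (by
        intro p hp
        obtain ⟨i, rfl⟩ := List.mem_ofFn.1 hp
        exact hall i)
      refine ⟨y, y1, ?_⟩
      rw [← y2, List.map_ofFn, List.prod_ofFn]
      refine Finset.prod_congr rfl fun i _ => ?_
      simp only [B₀, Matrix.of_apply]
      rw [if_neg (by have := hall i; tauto)]
      rfl
    · push Not at hall
      obtain ⟨i, hi⟩ := hall
      refine ⟨0, fun r => by simp, ?_⟩
      rw [Finset.prod_eq_zero (Finset.mem_univ i)]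
      · simp
      · simp only [B₀, Matrix.of_apply]
        rw [if_pos (by tauto)]
  have hle : m * m + x ^ k ≤ x ^ (2 * k + 4) := by
    have a1 : m * m ≤ x ^ (k + 2) := by
      calc m * m ≤ x * x := Nat.mul_le_mul (by omega) (by omega)
        _ = x ^ 2 := by ring
        _ ≤ x ^ (k + 2) := Nat.pow_le_pow_right (by omega) (by omega)
    have a2 : x ^ k ≤ x ^ (k + 2) := Nat.pow_le_pow_right (by omega) (by omega)
    have a3 : 2 * x ^ (k + 2) ≤ x ^ (k + 3) := by
      rw [pow_succ x (k + 2), mul_comm]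
      exact Nat.mul_le_mul_left _ hx2
    have a4 : x ^ (k + 3) ≤ x ^ (2 * k + 4) := Nat.pow_le_pow_right (by omega) (by omega)
    omega
  have hle' : x ^ k ≤ x ^ (2 * k + 4) := Nat.pow_le_pow_right (by omega) (by omega)
  refine ⟨ρ, B, Matrix.diagonal fun j => (γ j)⁻¹, 0 + 0 + 1, h3, ?_, fun i j => ?_, by omega, ?_⟩
  · rw [Matrix.det_diagonal]
    exact Finset.prod_ne_zero_iff.2 fun j _ => inv_ne_zero (h4 j)
  · rw [Matrix.mul_diagonal]
    simp only [B, Matrix.of_apply]
    have := h4 j
    field_simp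
  · rw [hB]
    exact (Expr.span B₀ hmx hnx (hs.mono hle' hle)).add (Expr.low B₁ hmx hnx hr)

/-! ### The other side -/

/-- The systems in the normal form are sums of a small integer matrix and a matrix with few nonzero
entries. -/
theorem fewReals_of_perm {k m n : ℕ} {A : Matrix (Fin m) (Fin n) ℝ} {b : Fin m → ℝ}
    (h : PU.PermSystem k m n A b) : FewReals k m n A := by
  classical
  obtain ⟨π, τ, δ, i₀, hmn, h1, h2, h3, h4, h5, h6⟩ := h
  have hA : ∀ i j, A i j = if h : (i : ℕ) < n then
      (if j = ⟨i, h⟩ then 1 else 0) - (if j = π ⟨i, h⟩ then 1 else 0) +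
        δ ⟨i, h⟩ * (if j = τ ⟨i, h⟩ then 1 else 0) else (if j = i₀ then 1 else 0) := by
    intro i j
    have h7 := h5 (Pi.single j 1) i
    rw [Matrix.mulVec_single_one] at h7
    have e : ∀ a : Fin n, (Pi.single j (1 : ℝ) : Fin n → ℝ) a = if j = a then 1 else 0 := by
      intro a
      rw [Pi.single_apply]
      by_cases h : a = j
      · rw [if_pos h, if_pos h.symm]
      · rw [if_neg h, if_neg (fun h' => h h'.symm)]
    simp only [e] at h7
    exact h7
  refine ⟨Matrix.of fun i j => if h : (i : ℕ) < n then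
      (if j = ⟨i, h⟩ then 1 else 0) - (if j = π ⟨i, h⟩ then 1 else 0) else
      (if j = i₀ then 1 else 0),
    Matrix.of fun i j => if h : (i : ℕ) < n then
      δ ⟨i, h⟩ * (if j = τ ⟨i, h⟩ then 1 else 0) else 0, fun i j => ?_, fun i j => ?_, ?_, ?_⟩
  · simp only [Matrix.of_apply]
    split_ifs <;> norm_num
  · simp only [Matrix.of_apply]
    split_ifs with a1 a2
    · rw [mul_one]
      exact h1 _
    · rw [mul_zero, abs_zero]
      positivity
    · rw [abs_zero]
      positivity
  · refine le_trans (Nat.pow_le_pow_left ?_ k) h2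
    refine Set.ncard_le_ncard_of_injOn (fun p : Fin m × Fin n =>
      if h : (p.1 : ℕ) < n then (⟨p.1, h⟩ : Fin n) else i₀) ?_ ?_ (Set.toFinite _)
    · rintro ⟨i, j⟩ hij
      simp only [Matrix.of_apply, Set.mem_ofPred_eq, ne_eq] at hij ⊢
      by_cases a1 : (i : ℕ) < n
      · rw [dif_pos a1] at hij ⊢
        exact fun h => hij (by rw [h, zero_mul])
      · rw [dif_neg a1] at hij
        exact absurd rfl hij
    · rintro ⟨i, j⟩ hij ⟨i', j'⟩ hij' heq
      simp only [Matrix.of_apply, Set.mem_ofPred_eq, ne_eq] at hij hij' heq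
      by_cases a1 : (i : ℕ) < n
      swap
      · rw [dif_neg a1] at hij
        exact absurd rfl hij
      by_cases a2 : (i' : ℕ) < n
      swap
      · rw [dif_neg a2] at hij'
        exact absurd rfl hij'
      rw [dif_pos a1, dif_pos a2] at heq
      rw [dif_pos a1] at hij
      rw [dif_pos a2] at hij'
      have e1 : i = i' := Fin.ext (Fin.mk.inj heq)
      have e2 : j = τ ⟨i, a1⟩ := by
        by_contra hne
        rw [if_neg hne, mul_zero] at hij
        exact hij rfl
      have e3 : j' = τ ⟨i', a2⟩ := by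
        by_contra hne
        rw [if_neg hne, mul_zero] at hij'
        exact hij' rfl
      subst e1
      rw [e2, e3]
  · ext i j
    rw [hA, Matrix.add_apply, Matrix.of_apply, Matrix.of_apply]
    split_ifs <;> simp

theorem decides_sub {O : Set (List Bool)} {α : Alg}
    {C C' : ∀ m n : ℕ, Matrix (Fin m) (Fin n) ℝ → (Fin m → ℝ) → Prop}
    (h : ∀ m n A b, C' m n A b → C m n A b) (hd : DecidesOn O C α) : DecidesOn O C' α := by
  obtain ⟨p, hp⟩ := hd
  exact ⟨p, fun m n hm hn A b hC => hp m n hm hn A b (h m n A b hC)⟩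

/-- Few reals are as hard as the whole problem. -/
theorem few_iff (k : ℕ) (O : Set (List Bool)) :
    (∃ α : Alg, PolyControl α ∧ DecidesOn O (fun m n A _ => FewReals k m n A) α) ↔
      ∃ α : Alg, PolyControl α ∧ DecidesOn O (fun _ _ _ _ => True) α := by
  constructor
  · rintro ⟨α, h1, h2⟩
    exact (PU.main_iff k O).1.1 ⟨α, h1, decides_sub (fun m n A b h => fewReals_of_perm h) h2⟩
  · rintro ⟨α, h1, h2⟩
    exact ⟨α, h1, decides_sub (fun m n A b _ => trivial) h2⟩

end Pool.Agent.K7.H40.MC
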