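import Pool.Agent.K7.H40.MC.Ops
import Pool.Agent.H568.LP.MF

set_option autoImplicit false

/-! The basic matrices. -/

namespace Pool.Agent.K7.H40.MC

open Matrix Pool.Agent.H568.LP

variable {ι κ μ : Type}

/-! ### Small rank -/

theorem Sp.low [Fintype ι] [Fintype κ] {k : ℕ} (A : Matrix ι κ ℝ) (h : A.rank ≤ k) :
    Sp ((k + 1) * ((Fintype.card ι + 1) * (Fintype.card κ + 1)) ^ k) 0 A := by
  classical
  refine ⟨Σ q : Fin (k + 1), (Fin q → ι) × (Fin q → κ), inferInstance,
    fun x => (A.submatrix x.2.1 x.2.2).det, ?_, fun q f g => ?_⟩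
  · rw [Fintype.card_sigma]
    calc ∑ q : Fin (k + 1), Fintype.card ((Fin q → ι) × (Fin q → κ))
        ≤ ∑ _q : Fin (k + 1), ((Fintype.card ι + 1) * (Fintype.card κ + 1)) ^ k := by
          refine Finset.sum_le_sum fun q _ => ?_
          rw [Fintype.card_prod, Fintype.card_fun, Fintype.card_fun, Fintype.card_fin, ← mul_pow]
          have hq : (q : ℕ) ≤ k := by omega
          exact (Nat.pow_le_pow_left (Nat.mul_le_mul (Nat.le_succ _) (Nat.le_succ _)) _).trans
            (Nat.pow_le_pow_right (by positivity) hq)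
      _ = _ := by
          rw [Finset.sum_const, Finset.card_univ, Fintype.card_fin, smul_eq_mul]
  · by_cases hq : q < k + 1
    · refine ⟨Pi.single ⟨⟨q, hq⟩, f, g⟩ 1, fun l => ?_, ?_⟩
      · rw [Pi.single_apply]
        split_ifs <;> simp
      · rw [Finset.sum_eq_single (⟨⟨q, hq⟩, f, g⟩ : Σ q : Fin (k + 1), (Fin q → ι) × (Fin q → κ))]
        · simp
        · intro b _ hb
          rw [Pi.single_eq_of_ne hb]
          simp
        · intro h'
          exact absurd (Finset.mem_univ _) h'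
    · refine ⟨0, fun l => by simp, ?_⟩
      simp only [Pi.zero_apply, Int.cast_zero, zero_mul, Finset.sum_const_zero]
      by_contra hne
      have h1 : (A.submatrix f g).rank = q := by
        rw [Matrix.rank_of_isUnit _ ((Matrix.isUnit_iff_isUnit_det _).2 (isUnit_iff_ne_zero.2 hne)),
          Fintype.card_fin]
      have h2 := Matrix.rank_submatrix_le A f g
      omega

/-! ### Few entries -/

theorem Sp.zero : Sp 1 0 (0 : Matrix ι κ ℝ) := by
  refine ⟨Unit, inferInstance, fun _ => 1, by simp, fun q f g => ?_⟩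
  rcases Nat.eq_zero_or_pos q with rfl | hq
  · refine ⟨fun _ => 1, fun _ => by simp, ?_⟩
    rw [Matrix.det_isEmpty]
    simp
  · refine ⟨fun _ => 0, fun _ => by simp, ?_⟩
    rw [Matrix.det_eq_zero_of_row_eq_zero (⟨0, hq⟩ : Fin q) (fun j => by simp)]
    simp

/-- One entry. -/
def ent1 [DecidableEq ι] [DecidableEq κ] (i₀ : ι) (j₀ : κ) (c : ℝ) : Matrix ι κ ℝ :=
  Matrix.of fun i j => if i = i₀ ∧ j = j₀ then c else 0

/-- Some entries. -/
def entS [DecidableEq ι] [DecidableEq κ] (A : Matrix ι κ ℝ) (S : Finset (ι × κ)) :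
    Matrix ι κ ℝ := Matrix.of fun i j => if (i, j) ∈ S then A i j else 0

theorem Sp.one [DecidableEq ι] [DecidableEq κ] (i₀ : ι) (j₀ : κ) (c : ℝ) :
    Sp 2 0 (ent1 i₀ j₀ c) := by
  refine ⟨Fin 2, inferInstance, ![1, c], by simp, fun q f g => ?_⟩
  rcases Nat.lt_or_ge q 2 with hq | hq
  · rcases (show q = 0 ∨ q = 1 by omega) with rfl | rfl
    · refine ⟨![1, 0], fun l => by fin_cases l <;> simp, ?_⟩
      rw [Matrix.det_isEmpty]
      simp
    · by_cases h : f 0 = i₀ ∧ g 0 = j₀
      · refine ⟨![0, 1], fun l => by fin_cases l <;> simp, ?_⟩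
        rw [Matrix.det_fin_one]
        simp [h, ent1]
      · refine ⟨![0, 0], fun l => by fin_cases l <;> simp, ?_⟩
        rw [Matrix.det_fin_one]
        simp [h, ent1]
  · refine ⟨![0, 0], fun l => by fin_cases l <;> simp, ?_⟩
    simp only [Fin.sum_univ_two, Matrix.cons_val_zero, Matrix.cons_val_one, Int.cast_zero,
      zero_mul, add_zero]
    by_cases h : f ⟨0, by omega⟩ = i₀
    · by_cases h' : f ⟨1, by omega⟩ = i₀
      · refine Matrix.det_zero_of_row_eq (i := ⟨0, by omega⟩) (j := ⟨1, by omega⟩) ?_ ?_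
        · intro hh
          have := congrArg Fin.val hh
          simp at this
        · funext j
          simp only [Matrix.submatrix_apply, h, h']
      · refine Matrix.det_eq_zero_of_row_eq_zero (⟨1, by omega⟩ : Fin q) fun j => ?_
        simp [h', ent1]
    · refine Matrix.det_eq_zero_of_row_eq_zero (⟨0, by omega⟩ : Fin q) fun j => ?_
      simp [h, ent1]

theorem Sp.few_aux [Fintype ι] [Fintype κ] [DecidableEq ι] [DecidableEq κ] (A : Matrix ι κ ℝ)
    (S : Finset (ι × κ)) : Sp (2 ^ S.card) (S.card * (Fintype.card κ + Fintype.card ι))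
      (entS A S) := by
  induction S using Finset.induction_on with
  | empty =>
    have e : entS A ∅ = 0 := by
      ext i j
      simp [entS]
    rw [e]
    exact Sp.zero.mono (by simp) (by simp)
  | insert p S hp ih =>
    obtain ⟨i₀, j₀⟩ := p
    have h1 := ih.add (Sp.one i₀ j₀ (A i₀ j₀))
    have e : entS A S + ent1 i₀ j₀ (A i₀ j₀) = entS A (insert (i₀, j₀) S) := by
      ext i j
      change (if (i, j) ∈ S then A i j else 0) + (if i = i₀ ∧ j = j₀ then A i₀ j₀ else 0) =
        if (i, j) ∈ insert (i₀, j₀) S then A i j else 0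
      by_cases h : i = i₀ ∧ j = j₀
      · obtain ⟨rfl, rfl⟩ := h
        rw [if_neg hp, if_pos ⟨rfl, rfl⟩, if_pos (Finset.mem_insert_self _ _), zero_add]
      · rw [if_neg h, add_zero]
        have : (i, j) ∈ insert (i₀, j₀) S ↔ (i, j) ∈ S := by
          rw [Finset.mem_insert]
          constructor
          · rintro (h' | h')
            · exact absurd (Prod.ext_iff.1 h') h
            · exact h'
          · exact Or.inr
        simp only [this]
    rw [e] at h1
    refine h1.mono ?_ ?_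
    · rw [Finset.card_insert_of_notMem hp, pow_succ]
    · rw [Finset.card_insert_of_notMem hp, add_mul, one_mul, add_zero]

theorem Sp.few [Fintype ι] [Fintype κ] (A : Matrix ι κ ℝ) :
    Sp (2 ^ {p : ι × κ | A p.1 p.2 ≠ 0}.ncard)
      ({p : ι × κ | A p.1 p.2 ≠ 0}.ncard * (Fintype.card κ + Fintype.card ι)) A := by
  classical
  have h := Sp.few_aux A (Finset.univ.filter fun p : ι × κ => A p.1 p.2 ≠ 0)
  have e1 : {p : ι × κ | A p.1 p.2 ≠ 0}.ncard =
      (Finset.univ.filter fun p : ι × κ => A p.1 p.2 ≠ 0).card := by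
    rw [← Set.ncard_coe_finset]
    congr 1
    ext p
    simp
  have e2 : entS A (Finset.univ.filter fun p : ι × κ => A p.1 p.2 ≠ 0) = A := by
    ext i j
    by_cases h : A i j = 0
    · simp [h, entS]
    · simp [h, entS]
  rw [e2] at h
  rw [e1]
  exact h

/-! ### Polynomials -/

theorem MF_vec {k β a D K : ℕ} {θ : Fin k → ℝ} {x : ℝ} (h : MF ∅ ∅ θ β a D K x) :
    ∃ y : (Fin k → Fin (D + 1)) → ℤ, (∀ e, |y e| ≤ K) ∧
      x = ∑ e, (y e : ℝ) * ∏ r, θ r ^ (e r : ℕ) := by
  obtain ⟨L, h1, h2, rfl⟩ := h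
  induction L generalizing K with
  | nil => exact ⟨0, fun e => by simp, by simp⟩
  | cons p L ih =>
    simp only [List.map_cons, List.sum_cons] at h1 ⊢
    obtain ⟨y, y1, y2⟩ := ih (K := (L.map fun p => p.1.natAbs).sum) le_rfl
      (fun q hq => h2 q (List.mem_cons_of_mem _ hq))
    obtain ⟨bs, as, e, -, -, g3, g4, g5, g6⟩ := h2 p List.mem_cons_self
    have hb : bs = [] := List.eq_nil_iff_forall_not_mem.2 fun y hy => g3 y hy
    have ha : as = [] := List.eq_nil_iff_forall_not_mem.2 fun y hy => g4 y hy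
    rw [hb, ha, List.prod_nil, one_mul, one_mul] at g6
    classical
    refine ⟨y + Pi.single (fun r => ⟨e r, Nat.lt_succ_of_le (g5 r)⟩) p.1, fun e' => ?_, ?_⟩
    · rw [Pi.add_apply]
      refine (abs_add_le _ _).trans ?_
      have h3 : |(Pi.single (fun r => (⟨e r, Nat.lt_succ_of_le (g5 r)⟩ : Fin (D + 1))) p.1 :
          (Fin k → Fin (D + 1)) → ℤ) e'| ≤ (p.1.natAbs : ℤ) := by
        rw [Pi.single_apply]
        split_ifs
        · rw [Int.abs_eq_natAbs]
        · simp
      have h4 := y1 e'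
      obtain ⟨T, hT⟩ : ∃ T, T = (L.map fun p => p.1.natAbs).sum := ⟨_, rfl⟩
      rw [← hT] at h1 h4
      have h5 : ((p.1.natAbs : ℕ) : ℤ) + (T : ℤ) ≤ (K : ℤ) := by exact_mod_cast h1
      linarith
    · rw [y2]
      simp only [Pi.add_apply, Int.cast_add, add_mul, Finset.sum_add_distrib]
      rw [add_comm]
      congr 1
      rw [Finset.sum_eq_single (fun r => (⟨e r, Nat.lt_succ_of_le (g5 r)⟩ : Fin (D + 1)))]
      · rw [Pi.single_eq_same, g6]
      · intro b _ hb
        rw [Pi.single_eq_of_ne hb]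
        simp
      · intro h'
        exact absurd (Finset.mem_univ _) h'

theorem Sp.poly [Fintype ι] {k L : ℕ} (hι : Fintype.card ι ≤ L) (θ : Fin k → ℝ)
    (P : Matrix ι κ (MvPolynomial (Fin k) ℤ)) (hP : ∀ i j, Small L (P i j)) :
    Sp ((L * L + 1) ^ k) (L + L * L + (k * L + L) * L)
      (Matrix.of fun i j => MvPolynomial.aeval θ (P i j) : Matrix ι κ ℝ) := by
  refine ⟨Fin k → Fin (L * L + 1), inferInstance, fun e => ∏ r, θ r ^ (e r : ℕ), ?_,
    fun q f g => ?_⟩
  · rw [Fintype.card_fun, Fintype.card_fin, Fintype.card_fin]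
  · by_cases hf : Function.Injective f
    · have hq : q ≤ L := by
        have := Fintype.card_le_of_injective f hf
        rw [Fintype.card_fin] at this
        omega
      have hX : ∀ j i : Fin q, MF ∅ ∅ θ 0 0 L ((L + 1) ^ k * 2 ^ L)
          (((Matrix.of fun i j => MvPolynomial.aeval θ (P i j) : Matrix ι κ ℝ).submatrix f g) j i) :=
        fun j i => MF.ofPoly (hP _ _).1 (hP _ _).2
      have h1 := MF.det (SA := ∅) (SB := ∅) (θ := θ) (kk := 0)
        ((Matrix.of fun i j => MvPolynomial.aeval θ (P i j) : Matrix ι κ ℝ).submatrix f g) 0 ⊥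
        (by simp) (fun j => (Submodule.mem_bot ℝ).2 rfl) (fun _ => 0) (by simp) hX
        (fun j i => MF.zero)
      rw [add_zero] at h1
      have h3 : (L + 1) ^ k * 2 ^ L ≤ 2 ^ (k * L + L) := by
        rw [pow_add, pow_mul']
        exact Nat.mul_le_mul_right _ (Nat.pow_le_pow_left Nat.lt_two_pow_self _)
      have h2 := h1.mono (le_refl 1) (le_refl 0) (Nat.mul_le_mul_right L hq)
        (show 2 ^ q * (2 ^ (q * q) * ((L + 1) ^ k * 2 ^ L) ^ q) ≤
          2 ^ (L + L * L + (k * L + L) * L) by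
            rw [pow_add, pow_add, mul_assoc, pow_mul 2 (k * L + L) L]
            refine Nat.mul_le_mul (Nat.pow_le_pow_right (by norm_num) hq) (Nat.mul_le_mul
              (Nat.pow_le_pow_right (by norm_num) (Nat.mul_le_mul hq hq)) ?_)
            exact (Nat.pow_le_pow_left h3 q).trans (Nat.pow_le_pow_right (by positivity) hq))
      obtain ⟨y, y1, y2⟩ := MF_vec h2
      exact ⟨y, fun l => by exact_mod_cast y1 l, y2⟩
    · unfold Function.Injective at hf
      push Not at hf
      obtain ⟨x, y, hxy, hne⟩ := hf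
      refine ⟨0, fun l => by simp, ?_⟩
      rw [Matrix.det_zero_of_row_eq hne (by funext i; simp [hxy])]
      simp

end Pool.Agent.K7.H40.MC
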