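import Pool.Agent.K7.H40.MC.Defs

set_option autoImplicit false

/-!
# Matrices whose minors are small integer combinations of few real numbers

The class is closed under sums, products, inverses and transposition.
-/

namespace Pool.Agent.K7.H40.MC

open Matrix

variable {ι κ μ : Type}

theorem Sp.mono {N s N' s' : ℕ} {A : Matrix ι κ ℝ} (h : Sp N s A) (hN : N ≤ N') (hs : s ≤ s') :
    Sp N' s' A := by
  obtain ⟨I, hI, w, h1, h2⟩ := h
  refine ⟨I, hI, w, h1.trans hN, fun q f g => ?_⟩
  obtain ⟨y, h3, h4⟩ := h2 q f g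
  exact ⟨y, fun l => (h3 l).trans (pow_le_pow_right₀ (by norm_num) hs), h4⟩

theorem Sp.sub {N s : ℕ} {A : Matrix ι κ ℝ} (h : Sp N s A) {ι' κ' : Type} (f : ι' → ι)
    (g : κ' → κ) : Sp N s (A.submatrix f g) := by
  obtain ⟨I, hI, w, h1, h2⟩ := h
  refine ⟨I, hI, w, h1, fun q f' g' => ?_⟩
  exact h2 q (f ∘ f') (g ∘ g')

theorem Sp.tr {N s : ℕ} {A : Matrix ι κ ℝ} (h : Sp N s A) : Sp N s Aᵀ := by
  obtain ⟨I, hI, w, h1, h2⟩ := h
  refine ⟨I, hI, w, h1, fun q f' g' => ?_⟩
  obtain ⟨y, h3, h4⟩ := h2 q g' f'
  refine ⟨y, h3, ?_⟩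
  rw [← h4, ← Matrix.det_transpose]
  rfl

/-- If every minor of `B` is up to a factor `0`, `1`, `-1` a minor of `A`, times a constant. -/
theorem Sp.of_minors {N s : ℕ} {A : Matrix ι κ ℝ} (h : Sp N s A) {ι' κ' : Type}
    (B : Matrix ι' κ' ℝ) (c : ℝ)
    (hB : ∀ (q : ℕ) (f : Fin q → ι') (g : Fin q → κ'), ∃ (e : ℤ) (q' : ℕ) (f' : Fin q' → ι)
      (g' : Fin q' → κ), |e| ≤ 1 ∧ (B.submatrix f g).det = c * (e * (A.submatrix f' g').det)) :
    Sp N s B := by
  obtain ⟨I, hI, w, h1, h2⟩ := h
  refine ⟨I, hI, fun l => c * w l, h1, fun q f g => ?_⟩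
  obtain ⟨e, q', f', g', he, h3⟩ := hB q f g
  obtain ⟨y, h4, h5⟩ := h2 q' f' g'
  refine ⟨fun l => e * y l, fun l => ?_, ?_⟩
  · rw [abs_mul]
    calc |e| * |y l| ≤ 1 * 2 ^ s := mul_le_mul he (h4 l) (abs_nonneg _) (by norm_num)
      _ = 2 ^ s := one_mul _
  · rw [h3, h5, Finset.mul_sum, Finset.mul_sum]
    refine Finset.sum_congr rfl fun l _ => ?_
    push_cast
    ring

/-! ### Products -/

theorem cb_aux {q : ℕ} [Fintype κ] [DecidableEq κ] (P : Matrix (Fin q) κ ℝ)
    (Q : Matrix κ (Fin q) ℝ) :
    (P * Q).det = ∑ a : Fin q → κ, (P.submatrix id a).det * ∏ i, Q (a i) i := by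
  rw [det_apply']
  have h1 : ∀ σ : Equiv.Perm (Fin q), ∏ i, (P * Q) (σ i) i =
      ∑ a : Fin q → κ, (∏ i, P (σ i) (a i)) * ∏ i, Q (a i) i := by
    intro σ
    simp only [Matrix.mul_apply]
    rw [Finset.prod_univ_sum, Fintype.piFinset_univ]
    apply Finset.sum_congr rfl
    intro a _
    rw [Finset.prod_mul_distrib]
  simp only [h1, Finset.mul_sum]
  rw [Finset.sum_comm]
  apply Finset.sum_congr rfl
  intro a _
  rw [det_apply', Finset.sum_mul]
  apply Finset.sum_congr rfl
  intro σ _
  simp only [submatrix_apply, id]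
  ring

/-- The part of the sum for one set of columns. -/
theorem cb_set {q : ℕ} [Fintype κ] [DecidableEq κ] (P : Matrix (Fin q) κ ℝ)
    (Q : Matrix κ (Fin q) ℝ) (S : Finset κ) :
    ∃ (e : ℤ) (q' : ℕ) (u : Fin q' → Fin q) (b : Fin q' → κ), |e| ≤ 1 ∧
      ∑ a ∈ Finset.univ.filter (fun a : Fin q → κ => Finset.univ.image a = S),
        (P.submatrix id a).det * ∏ i, Q (a i) i =
      e * ((P.submatrix u b).det * (Q.submatrix b u).det) := by
  by_cases hS : S.card = q
  · obtain ⟨b, hb⟩ : ∃ b : Fin q → κ, Function.Injective b ∧ Finset.univ.image b = S := by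
      refine ⟨fun i => ((S.equivFinOfCardEq hS).symm i : κ), ?_, ?_⟩
      · exact Subtype.val_injective.comp (S.equivFinOfCardEq hS).symm.injective
      · ext x
        simp only [Finset.mem_image, Finset.mem_univ, true_and]
        constructor
        · rintro ⟨i, rfl⟩
          exact ((S.equivFinOfCardEq hS).symm i).2
        · intro hx
          exact ⟨S.equivFinOfCardEq hS ⟨x, hx⟩, by simp⟩
    obtain ⟨hb1, hb2⟩ := hb
    refine ⟨1, q, id, b, by norm_num, ?_⟩
    have h1 : ∑ a ∈ Finset.univ.filter (fun a : Fin q → κ => Finset.univ.image a = S),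
        (P.submatrix id a).det * ∏ i, Q (a i) i =
        ∑ σ : Equiv.Perm (Fin q), (P.submatrix id (b ∘ σ)).det * ∏ i, Q (b (σ i)) i := by
      symm
      refine Finset.sum_bij (fun σ _ => b ∘ σ) ?_ ?_ ?_ ?_
      · intro σ _
        simp only [Finset.mem_filter, Finset.mem_univ, true_and]
        rw [← hb2]
        ext x
        simp only [Finset.mem_image, Finset.mem_univ, true_and, Function.comp]
        constructor
        · rintro ⟨i, rfl⟩
          exact ⟨_, rfl⟩
        · rintro ⟨i, rfl⟩
          exact ⟨σ.symm i, by simp⟩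
      · intro σ _ τ _ h
        ext i
        exact congrArg Fin.val (hb1 (congrFun h i))
      · intro a ha
        simp only [Finset.mem_filter, Finset.mem_univ, true_and] at ha
        have hinj : Function.Injective a := by
          have h2 : (Finset.univ.image a).card = (Finset.univ : Finset (Fin q)).card := by
            rw [ha, hS, Finset.card_univ, Fintype.card_fin]
          have h3 := Finset.card_image_iff.1 h2
          exact fun x y h => h3 (by simp) (by simp) h
        have hex : ∀ i, ∃ j, b j = a i := by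
          intro i
          have : a i ∈ Finset.univ.image b := by
            rw [hb2, ← ha]
            exact Finset.mem_image_of_mem _ (Finset.mem_univ _)
          obtain ⟨j, -, hj⟩ := Finset.mem_image.1 this
          exact ⟨j, hj⟩
        choose g hg using hex
        have hgi : Function.Injective g := fun x y h => hinj (by rw [← hg x, ← hg y, h])
        refine ⟨Equiv.ofBijective g (Finite.injective_iff_bijective.1 hgi), Finset.mem_univ _, ?_⟩
        funext i
        exact hg i
      · intro σ _
        rfl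
    rw [h1]
    have h2 : ∀ σ : Equiv.Perm (Fin q), (P.submatrix id (b ∘ σ)).det * ∏ i, Q (b (σ i)) i =
        (P.submatrix id b).det * (((Equiv.Perm.sign σ : ℤ) : ℝ) * ∏ i, Q (b (σ i)) i) := by
      intro σ
      have e2 : P.submatrix id (b ∘ σ) = (P.submatrix id b).submatrix id σ := rfl
      rw [e2, Matrix.det_permute']
      ring
    simp only [h2]
    rw [← Finset.mul_sum, det_apply' (Q.submatrix b id)]
    simp
  · refine ⟨0, 0, Fin.elim0, Fin.elim0, by norm_num, ?_⟩
    simp only [Int.cast_zero, zero_mul]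
    refine Finset.sum_eq_zero fun a ha => ?_
    simp only [Finset.mem_filter, Finset.mem_univ, true_and] at ha
    have hni : ¬ Function.Injective a := by
      intro h
      apply hS
      rw [← ha, Finset.card_image_of_injective _ h, Finset.card_univ, Fintype.card_fin]
    unfold Function.Injective at hni
    push Not at hni
    obtain ⟨x, y, hxy, hne⟩ := hni
    rw [Matrix.det_zero_of_column_eq hne (fun i => by simp [hxy]), zero_mul]

/-- **Products.** -/
theorem Sp.mul {N s N' s' : ℕ} [Fintype κ] {A : Matrix ι κ ℝ} {B : Matrix κ μ ℝ}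
    (hA : Sp N s A) (hB : Sp N' s' B) : Sp (N * N') (s + s' + Fintype.card κ) (A * B) := by
  classical
  obtain ⟨I, hI, w, h1, h2⟩ := hA
  obtain ⟨J, hJ, v, k1, k2⟩ := hB
  refine ⟨I × J, inferInstance, fun p => w p.1 * v p.2, ?_, fun q f h => ?_⟩
  · rw [Fintype.card_prod]
    exact Nat.mul_le_mul h1 k1
  · have e0 : (A * B).submatrix f h = A.submatrix f id * B.submatrix id h := by
      rw [Matrix.submatrix_mul _ _ f id h Function.bijective_id]
    choose e q' u b he hsum using cb_set (A.submatrix f id) (B.submatrix id h)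
    choose y y1 y2 using fun S : Finset κ => h2 (q' S) (f ∘ u S) (b S)
    choose z z1 z2 using fun S : Finset κ => k2 (q' S) (b S) (h ∘ u S)
    refine ⟨fun p => ∑ S : Finset κ, e S * (y S p.1 * z S p.2), fun p => ?_, ?_⟩
    · refine (Finset.abs_sum_le_sum_abs _ _).trans ?_
      calc ∑ S : Finset κ, |e S * (y S p.1 * z S p.2)| ≤ ∑ _S : Finset κ, (2 ^ s * 2 ^ s' : ℤ) := by
            refine Finset.sum_le_sum fun S _ => ?_
            rw [abs_mul, abs_mul]
            calc |e S| * (|y S p.1| * |z S p.2|) ≤ 1 * (2 ^ s * 2 ^ s') := by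
                  refine mul_le_mul (he S) (mul_le_mul (y1 S _) (z1 S _) (abs_nonneg _)
                    (by positivity)) (by positivity) (by norm_num)
              _ = _ := one_mul _
        _ = 2 ^ (s + s' + Fintype.card κ) := by
            rw [Finset.sum_const, Finset.card_univ, Fintype.card_finset, nsmul_eq_mul, pow_add,
              pow_add]
            push_cast
            ring
    · rw [e0, cb_aux, ← Finset.sum_fiberwise (s := Finset.univ)
        (g := fun a : Fin q → κ => Finset.univ.image a)]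
      rw [Finset.sum_congr rfl fun S _ => hsum S]
      have e3 : ∀ S : Finset κ, (e S : ℝ) * (((A.submatrix f id).submatrix (u S) (b S)).det *
          ((B.submatrix id h).submatrix (b S) (u S)).det) =
          ∑ p : I × J, ((e S * (y S p.1 * z S p.2) : ℤ) : ℝ) * (w p.1 * v p.2) := by
        intro S
        have a1 : ((A.submatrix f id).submatrix (u S) (b S)).det = ∑ l, (y S l : ℝ) * w l := y2 S
        have a2 : ((B.submatrix id h).submatrix (b S) (u S)).det = ∑ l, (z S l : ℝ) * v l := z2 S
        rw [a1, a2, Finset.sum_mul_sum, Finset.mul_sum, Fintype.sum_prod_type]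
        refine Finset.sum_congr rfl fun i _ => ?_
        rw [Finset.mul_sum]
        refine Finset.sum_congr rfl fun j _ => ?_
        push_cast
        ring
      rw [Finset.sum_congr rfl fun S _ => e3 S, Finset.sum_comm]
      refine Finset.sum_congr rfl fun p _ => ?_
      rw [← Finset.sum_mul]
      push_cast
      rfl

end Pool.Agent.K7.H40.MC
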