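import Pool.Agent.K7.H40.MC.Minors

set_option autoImplicit false

/-! Sums and inverses. -/

namespace Pool.Agent.K7.H40.MC

open Matrix

variable {ι κ μ : Type}

/-- The minors of `[A | 1]`. -/
theorem minor_id [DecidableEq ι] (A : Matrix ι κ ℝ) : ∀ (q : ℕ) (f : Fin q → ι)
    (g : Fin q → κ ⊕ ι), ∃ (e : ℤ) (q' : ℕ) (f' : Fin q' → ι) (g' : Fin q' → κ), |e| ≤ 1 ∧
      ((Matrix.fromCols A (1 : Matrix ι ι ℝ)).submatrix f g).det =
        e * (A.submatrix f' g').det := by
  intro q
  induction q with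
  | zero =>
    intro f g
    refine ⟨1, 0, f, Fin.elim0, by norm_num, ?_⟩
    rw [Matrix.det_isEmpty, Matrix.det_isEmpty]
    norm_num
  | succ q ih =>
    intro f g
    by_cases hall : ∀ i, ∃ j, g i = Sum.inl j
    · choose g' hg' using hall
      refine ⟨1, q + 1, f, g', by norm_num, ?_⟩
      rw [Int.cast_one, one_mul]
      congr 1
      ext i j
      simp [hg' j]
    push Not at hall
    obtain ⟨k, hk⟩ := hall
    obtain ⟨j, hj⟩ : ∃ j, g k = Sum.inr j := by
      cases h : g k with
      | inl j => exact absurd h (hk j)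
      | inr j => exact ⟨j, rfl⟩
    by_cases hinj : Function.Injective f
    · by_cases hex : ∃ i, f i = j
      · obtain ⟨i, hi⟩ := hex
        obtain ⟨e, q', f', g', he, h1⟩ := ih (f ∘ i.succAbove) (g ∘ k.succAbove)
        refine ⟨(-1) ^ ((i : ℕ) + k) * e, q', f', g', ?_, ?_⟩
        · rw [abs_mul, abs_pow, abs_neg, abs_one, one_pow, one_mul]
          exact he
        · rw [Matrix.det_succ_column _ k, Finset.sum_eq_single i]
          · have e1 : ((Matrix.fromCols A (1 : Matrix ι ι ℝ)).submatrix f g) i k = 1 := by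
              simp [hj, hi]
            have e2 : (((Matrix.fromCols A (1 : Matrix ι ι ℝ)).submatrix f g).submatrix
                i.succAbove k.succAbove) = (Matrix.fromCols A (1 : Matrix ι ι ℝ)).submatrix
                (f ∘ i.succAbove) (g ∘ k.succAbove) := rfl
            rw [e1, e2, h1]
            push_cast
            ring
          · intro i' _ hne
            have e1 : ((Matrix.fromCols A (1 : Matrix ι ι ℝ)).submatrix f g) i' k = 0 := by
              simp only [Matrix.submatrix_apply, hj, Matrix.fromCols_apply_inr]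
              rw [Matrix.one_apply_ne]
              intro h
              exact hne (hinj (h.trans hi.symm))
            rw [e1]
            ring
          · intro h
            exact absurd (Finset.mem_univ _) h
      · push Not at hex
        refine ⟨0, 0, Fin.elim0, Fin.elim0, by norm_num, ?_⟩
        rw [Int.cast_zero, zero_mul]
        refine Matrix.det_eq_zero_of_column_eq_zero k fun i => ?_
        simp only [Matrix.submatrix_apply, hj, Matrix.fromCols_apply_inr]
        exact Matrix.one_apply_ne (hex i)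
    · unfold Function.Injective at hinj
      push Not at hinj
      obtain ⟨x, y, hxy, hne⟩ := hinj
      refine ⟨0, 0, Fin.elim0, Fin.elim0, by norm_num, ?_⟩
      rw [Int.cast_zero, zero_mul]
      refine Matrix.det_zero_of_row_eq hne ?_
      funext i
      simp [hxy]

theorem Sp.idCols [DecidableEq ι] {N s : ℕ} {A : Matrix ι κ ℝ} (h : Sp N s A) :
    Sp N s (Matrix.fromCols A (1 : Matrix ι ι ℝ)) := by
  refine h.of_minors _ 1 fun q f g => ?_
  obtain ⟨e, q', f', g', he, h1⟩ := minor_id A q f g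
  exact ⟨e, q', f', g', he, by rw [one_mul, h1]⟩

/-- **Sums.** -/
theorem Sp.add [Fintype ι] [Fintype κ] {N s N' s' : ℕ} {A B : Matrix ι κ ℝ}
    (hA : Sp N s A) (hB : Sp N' s' B) :
    Sp (N * N') (s + s' + (Fintype.card κ + Fintype.card ι)) (A + B) := by
  classical
  have h1 := hA.idCols
  have h2 := (hB.tr.idCols.sub id (Sum.swap : κ ⊕ ι → ι ⊕ κ)).tr
  have h3 := h1.mul h2
  rw [Fintype.card_sum] at h3
  have e : A + B = Matrix.fromCols A (1 : Matrix ι ι ℝ) *
      ((Matrix.fromCols Bᵀ (1 : Matrix κ κ ℝ)).submatrix id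
        (Sum.swap : κ ⊕ ι → ι ⊕ κ))ᵀ := by
    ext i j
    simp only [Matrix.add_apply, Matrix.mul_apply, Fintype.sum_sum_type,
      Matrix.fromCols_apply_inl, Matrix.fromCols_apply_inr, Matrix.transpose_apply,
      Matrix.submatrix_apply, Sum.swap_inl, Sum.swap_inr, id]
    have e1 : ∀ x, (1 : Matrix κ κ ℝ) j x = if x = j then 1 else 0 := fun x => by
      rw [Matrix.one_apply]
      by_cases hx : j = x
      · rw [if_pos hx, if_pos hx.symm]
      · rw [if_neg hx, if_neg (fun h => hx h.symm)]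
    have e2 : ∀ x, (1 : Matrix ι ι ℝ) i x = if x = i then 1 else 0 := fun x => by
      rw [Matrix.one_apply]
      by_cases hx : i = x
      · rw [if_pos hx, if_pos hx.symm]
      · rw [if_neg hx, if_neg (fun h => hx h.symm)]
    simp only [e1, e2, mul_ite, mul_one, mul_zero, ite_mul, one_mul, zero_mul,
      Finset.sum_ite_eq', Finset.mem_univ, if_true]
  rw [e]
  exact h3

/-- The minors of the inverse. -/
theorem minor_inv [Fintype ι] [DecidableEq ι] (A : Matrix ι ι ℝ) (hdet : A.det ≠ 0) (q : ℕ)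
    (f g : Fin q → ι) : ∃ (e : ℤ) (q' : ℕ) (f' : Fin q' → ι) (g' : Fin q' → ι), |e| ≤ 1 ∧
      (A⁻¹.submatrix f g).det = (A.det)⁻¹ * (e * (A.submatrix f' g').det) := by
  classical
  by_cases hf : Function.Injective f
  swap
  · unfold Function.Injective at hf
    push Not at hf
    obtain ⟨x, y, hxy, hne⟩ := hf
    refine ⟨0, 0, Fin.elim0, Fin.elim0, by norm_num, ?_⟩
    rw [Int.cast_zero, zero_mul, mul_zero]
    refine Matrix.det_zero_of_row_eq hne ?_
    funext i
    simp [hxy]
  let ρ := {x // x ∉ Set.range f}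
  let E : Fin q ⊕ ρ ≃ ι := ((Equiv.ofInjective f hf).sumCongr (Equiv.refl _)).trans
    (Equiv.Set.sumCompl (Set.range f))
  have hE1 : ∀ i, E (Sum.inl i) = f i := fun i => rfl
  have hE2 : ∀ x : ρ, E (Sum.inr x) = x := fun x => rfl
  let c : Fin q ⊕ ρ → ι ⊕ ι := Sum.elim (fun i => Sum.inl (g i)) (fun x => Sum.inr (x : ι))
  have hM1 : ((Matrix.fromCols A⁻¹ (1 : Matrix ι ι ℝ)).submatrix E c).det =
      (A⁻¹.submatrix f g).det := by
    have e1 : (Matrix.fromCols A⁻¹ (1 : Matrix ι ι ℝ)).submatrix E c =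
        Matrix.fromBlocks (A⁻¹.submatrix f g) 0 (A⁻¹.submatrix (fun x : ρ => (x : ι)) g)
          (1 : Matrix ρ ρ ℝ) := by
      ext i j
      rcases i with i | i <;> rcases j with j | j
      · simp [c, hE1]
      · simp only [Matrix.submatrix_apply, hE1, c, Sum.elim_inr, Matrix.fromCols_apply_inr,
          Matrix.fromBlocks_apply₁₂, Matrix.zero_apply]
        exact Matrix.one_apply_ne fun h => j.2 ⟨i, h⟩
      · simp [c, hE2]
      · simp only [Matrix.submatrix_apply, hE2, c, Sum.elim_inr, Matrix.fromCols_apply_inr,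
          Matrix.fromBlocks_apply₂₂, Matrix.one_apply]
        by_cases hij : i = j
        · rw [if_pos hij, if_pos (by rw [hij])]
        · rw [if_neg hij, if_neg (fun h => hij (Subtype.ext h))]
    rw [e1, Matrix.det_fromBlocks_zero₁₂, Matrix.det_one, mul_one]
  have hM2 : (Matrix.fromCols A⁻¹ (1 : Matrix ι ι ℝ)).submatrix E c =
      A⁻¹.submatrix E E * (Matrix.fromCols (1 : Matrix ι ι ℝ) A).submatrix E c := by
    rw [Matrix.submatrix_mul_equiv]
    congr 1
    rw [Matrix.mul_fromCols, Matrix.mul_one, Matrix.nonsing_inv_mul _ (isUnit_iff_ne_zero.2 hdet)]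
  have hM3 : (A⁻¹.submatrix f g).det = (A.det)⁻¹ *
      ((Matrix.fromCols (1 : Matrix ι ι ℝ) A).submatrix E c).det := by
    rw [← hM1, hM2, Matrix.det_mul, Matrix.det_submatrix_equiv_self, Matrix.det_nonsing_inv,
      Ring.inverse_eq_inv']
  obtain ⟨N, hN⟩ : ∃ N, N = Fintype.card (Fin q ⊕ ρ) := ⟨_, rfl⟩
  let φ : Fin N ≃ Fin q ⊕ ρ := (Fintype.equivFinOfCardEq hN.symm).symm
  obtain ⟨e, q', f', g', he, h1⟩ := minor_id A N (E ∘ φ) (Sum.swap ∘ c ∘ φ)
  refine ⟨e, q', f', g', he, ?_⟩
  rw [hM3, ← h1, ← Matrix.det_submatrix_equiv_self φ]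
  congr 2
  ext i j
  simp only [Matrix.submatrix_apply, Function.comp]
  cases c (φ j) <;> rfl

/-- **Inverses.** -/
theorem Sp.inv [Fintype ι] [DecidableEq ι] {N s : ℕ} {A : Matrix ι ι ℝ} (h : Sp N s A)
    (hdet : A.det ≠ 0) : Sp N s A⁻¹ :=
  h.of_minors _ _ fun q f g => minor_inv A hdet q f g

end Pool.Agent.K7.H40.MC
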